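import Pool.Agent.helper4.EQW.Low

/-!
# WL-1: `γ` on the cone `|arg w| e < π`
-/

namespace Pool.Agent.helper12.WL

open Complex
open Pool.Agent.helper31.EQ.W (c2 gl gs nxt wn FW)
open Pool.Agent.helper4.EQW (f0 G1 h0 v2 KK c2_pos)

variable {e κ : ℝ} {w : ℂ}

/-- The cone. -/
def Cone (e : ℝ) : Set ℂ := {w | w ≠ 0 ∧ |arg w| * e < Real.pi}

theorem cone_slit (he : 1 ≤ e) (hw : w ∈ Cone e) : w ∈ slitPlane := by
  rw [Complex.mem_slitPlane_iff_arg]
  refine ⟨?_, hw.1⟩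
  intro h
  have h1 := hw.2
  rw [h, abs_of_pos Real.pi_pos] at h1
  nlinarith [Real.pi_pos]

theorem log_cpow (he : 1 ≤ e) (hw : w ∈ Cone e) : log (w ^ (e : ℂ)) = (e : ℂ) * log w := by
  have h0 := hw.1
  rw [Complex.cpow_def_of_ne_zero h0, Complex.log_exp, mul_comm]
  · have : (log w * (e : ℂ)).im = arg w * e := by
      rw [Complex.mul_im, Complex.ofReal_re, Complex.ofReal_im, Complex.log_im]
      ring
    rw [this]
    have h1 := hw.2
    have h2 : |arg w * e| < Real.pi := by rwa [abs_mul, abs_of_nonneg (by linarith : (0 : ℝ) ≤ e)]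
    exact (abs_lt.1 h2).1
  · have : (log w * (e : ℂ)).im = arg w * e := by
      rw [Complex.mul_im, Complex.ofReal_re, Complex.ofReal_im, Complex.log_im]
      ring
    rw [this]
    have h1 := hw.2
    have h2 : |arg w * e| < Real.pi := by rwa [abs_mul, abs_of_nonneg (by linarith : (0 : ℝ) ≤ e)]
    exact (abs_lt.1 h2).2.le

theorem cpow_ne (hw : w ∈ Cone e) : w ^ (e : ℂ) ≠ 0 := by
  rw [Complex.cpow_def_of_ne_zero hw.1]
  exact exp_ne_zero _

theorem arg_cpow (he : 1 ≤ e) (hw : w ∈ Cone e) : arg (w ^ (e : ℂ)) = e * arg w := by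
  rw [← Complex.log_im, log_cpow he hw, Complex.mul_im, Complex.ofReal_re, Complex.ofReal_im,
    Complex.log_im]
  ring

theorem cpow_slit (he : 1 ≤ e) (hw : w ∈ Cone e) : w ^ (e : ℂ) ∈ slitPlane := by
  rw [Complex.mem_slitPlane_iff_arg]
  refine ⟨?_, cpow_ne hw⟩
  rw [arg_cpow he hw]
  have h1 := hw.2
  intro h
  have h2 : |arg w * e| < Real.pi := by rwa [abs_mul, abs_of_nonneg (by linarith : (0 : ℝ) ≤ e)]
  have h3 := (abs_lt.1 h2).2
  linarith

theorem half_slit {a : ℂ} (ha : a ∈ slitPlane) : (1 + a) / 2 ∈ slitPlane := by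
  rw [Complex.mem_slitPlane_iff] at ha ⊢
  have hr : ((1 + a) / 2).re = (1 + a.re) / 2 := by simp
  have hi : ((1 + a) / 2).im = a.im / 2 := by simp
  rw [hr, hi]
  rcases ha with h | h
  · left; linarith
  · right
    intro h2
    exact h (by linarith)

theorem f0_slit (he : 1 ≤ e) (hw : w ∈ Cone e) : f0 e w ∈ slitPlane := half_slit (cpow_slit he hw)

theorem log_div {a : ℂ} (ha : a ∈ slitPlane) :
    log (a⁻¹ * ((1 + a) / 2)) = - log a + log ((1 + a) / 2) := by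
  have hb := half_slit ha
  have ha0 := Complex.slitPlane_ne_zero ha
  have hb0 := Complex.slitPlane_ne_zero hb
  set b := (1 + a) / 2 with hbd
  have hi : b.im = a.im / 2 := by rw [hbd]; simp
  have h1 : a⁻¹ * b = exp (- log a + log b) := by
    rw [Complex.exp_add, Complex.exp_neg, Complex.exp_log ha0, Complex.exp_log hb0]
  have h2 : (- log a + log b).im = arg b - arg a := by
    rw [Complex.add_im, Complex.neg_im, Complex.log_im, Complex.log_im]
    ring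
  have h3 : |arg b - arg a| < Real.pi := by
    have ea := (Complex.mem_slitPlane_iff_arg.1 ha).1
    have eb := (Complex.mem_slitPlane_iff_arg.1 hb).1
    have a1 := Complex.neg_pi_lt_arg a
    have b1 := Complex.neg_pi_lt_arg b
    have a2 := lt_of_le_of_ne (Complex.arg_le_pi a) ea
    have b2 := lt_of_le_of_ne (Complex.arg_le_pi b) eb
    rcases lt_trichotomy a.im 0 with h | h | h
    · have ha' : arg a < 0 := Complex.arg_neg_iff.2 h
      have hb' : arg b < 0 := Complex.arg_neg_iff.2 (by rw [hi]; linarith)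
      rw [abs_lt]
      constructor <;> linarith
    · have hb' : b.im = 0 := by rw [hi, h]; norm_num
      have hra : 0 < a.re := by
        rcases Complex.mem_slitPlane_iff.1 ha with h4 | h4
        · exact h4
        · exact absurd h h4
      have hrb : 0 < b.re := by
        rcases Complex.mem_slitPlane_iff.1 hb with h4 | h4
        · exact h4
        · exact absurd hb' h4
      have e1 : arg a = 0 := Complex.arg_eq_zero_iff.2 ⟨hra.le, h⟩
      have e2 : arg b = 0 := Complex.arg_eq_zero_iff.2 ⟨hrb.le, hb'⟩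
      rw [e1, e2]
      simpa using Real.pi_pos
    · have ha' : 0 ≤ arg a := Complex.arg_nonneg_iff.2 h.le
      have hb' : 0 ≤ arg b := Complex.arg_nonneg_iff.2 (by rw [hi]; linarith)
      rw [abs_lt]
      constructor <;> linarith
  rw [h1, Complex.log_exp]
  · rw [h2]; exact (abs_lt.1 h3).1
  · rw [h2]; exact (abs_lt.1 h3).2.le

/-- `γ(1/y) = γ(w)`, `y = 1/w`. -/
theorem h0_inv (he : 1 ≤ e) (hw : w ∈ Cone e) : h0 e w⁻¹ = gs e w := by
  have hs := cone_slit he hw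
  have ha := cpow_slit he hw
  have hf := half_slit ha
  have he0 : (e : ℂ) ≠ 0 := by
    have : (e : ℝ) ≠ 0 := by linarith
    exact_mod_cast this
  have h1 : arg w ≠ Real.pi := (Complex.mem_slitPlane_iff_arg.1 hs).1
  unfold h0 gs f0
  rw [Complex.inv_cpow _ _ h1]
  have ha0 := Complex.slitPlane_ne_zero ha
  have hf0 := Complex.slitPlane_ne_zero hf
  have e1 : (1 + (w ^ (e : ℂ))⁻¹) / 2 = (w ^ (e : ℂ))⁻¹ * ((1 + w ^ (e : ℂ)) / 2) := by
    field_simp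
    ring
  rw [e1, Complex.cpow_def_of_ne_zero (mul_ne_zero (inv_ne_zero ha0) hf0), log_div ha,
    log_cpow he hw, Complex.cpow_def_of_ne_zero hf0]
  have e2 : (-((e : ℂ) * log w) + log ((1 + w ^ (e : ℂ)) / 2)) * -((2 / e : ℝ) : ℂ) =
      2 * log w + log ((1 + w ^ (e : ℂ)) / 2) * -((2 / e : ℝ) : ℂ) := by
    push_cast
    field_simp
    ring
  rw [e2, Complex.exp_add, two_mul, Complex.exp_add, Complex.exp_log hw.1]
  ring

theorem f0_deriv (he : 1 ≤ e) (hw : w ∈ Cone e) :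
    HasDerivAt (f0 e) ((e : ℂ) * w ^ ((e : ℂ) - 1) / 2) w := by
  have h1 : HasDerivAt (fun z : ℂ => z ^ (e : ℂ)) ((e : ℂ) * w ^ ((e : ℂ) - 1)) w := by
    have := (hasDerivAt_id w).cpow_const (c := (e : ℂ)) (cone_slit he hw)
    simpa using this
  exact (h1.const_add 1).div_const 2

/-- `Γ' = G1` -/
theorem gs_deriv (he : 1 ≤ e) (hw : w ∈ Cone e) :
    HasDerivAt (fun z => (c2 e κ : ℂ) * gs e z) (G1 e κ w) w := by
  have hs := f0_slit he hw
  have hf := f0_deriv he hw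
  have hz0 := hw.1
  have hf0 : f0 e w ≠ 0 := slitPlane_ne_zero hs
  have h1 : HasDerivAt (fun z => f0 e z ^ (-((2 / e : ℝ) : ℂ)))
      (-((2 / e : ℝ) : ℂ) * f0 e w ^ (-((2 / e : ℝ) : ℂ) - 1) * ((e : ℂ) * w ^ ((e : ℂ) - 1) / 2)) w :=
    hf.cpow_const hs
  have h2 : HasDerivAt (fun z : ℂ => z ^ 2) (2 * w) w := by
    simpa using hasDerivAt_pow 2 w
  have h3 := (h2.mul h1).const_mul (c2 e κ : ℂ)
  have hfun : (fun z => (c2 e κ : ℂ) * gs e z) =
      fun y => (c2 e κ : ℂ) * ((fun z : ℂ => z ^ 2) * fun z => f0 e z ^ (-((2 / e : ℝ) : ℂ))) y := by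
    funext y
    rfl
  rw [hfun]
  refine h3.congr_deriv ?_
  symm
  unfold G1
  have e1 : -((2 / e : ℝ) : ℂ) - 1 = -((1 + 2 / e : ℝ) : ℂ) := by push_cast; ring
  have e2 : f0 e w ^ (-((2 / e : ℝ) : ℂ)) = f0 e w ^ (-((1 + 2 / e : ℝ) : ℂ)) * f0 e w := by
    have : -((2 / e : ℝ) : ℂ) = -((1 + 2 / e : ℝ) : ℂ) + 1 := by push_cast; ring
    rw [this, Complex.cpow_add _ _ hf0, Complex.cpow_one]
  rw [e1, e2]
  have e3 : f0 e w = (1 + w * w ^ ((e : ℂ) - 1)) / 2 := by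
    rw [Pool.Agent.helper4.EQW.mul_cpow_sub_one hz0]
    rfl
  have he' : (e : ℂ) ≠ 0 := by
    have : (e : ℝ) ≠ 0 := by linarith
    exact_mod_cast this
  set g := f0 e w ^ (-((1 + 2 / e : ℝ) : ℂ)) with hg
  rw [e3]
  push_cast
  field_simp
  ring

/-! ### values at `exp (±κ)` -/

theorem cone_real {x : ℝ} (hx : 0 < x) : (x : ℂ) ∈ Cone e := by
  refine ⟨by exact_mod_cast hx.ne', ?_⟩
  rw [Complex.arg_ofReal_of_nonneg hx.le, abs_zero, zero_mul]
  exact Real.pi_pos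

theorem f0_real {x : ℝ} (hx : 0 < x) : f0 e (x : ℂ) = (((1 + x ^ e) / 2 : ℝ) : ℂ) := by
  unfold f0
  rw [← Complex.ofReal_cpow hx.le]
  push_cast
  rfl

theorem exp_half (κ : ℝ) : (1 + Real.exp κ ^ e) / 2 = Real.exp (e * κ / 2) * Real.cosh (e * κ / 2) := by
  rw [Real.cosh_eq, ← Real.exp_mul]
  have h1 : κ * e = e * κ / 2 + e * κ / 2 := by ring
  rw [h1, Real.exp_add, Real.exp_neg]
  have := (Real.exp_pos (e * κ / 2)).ne'
  field_simp
  ring

/-- `Γ(e^κ) = e^κ` for every real `κ` -/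
theorem gs_exp (he : 1 ≤ e) (κ : ℝ) :
    (c2 e κ : ℂ) * gs e ((Real.exp κ : ℝ) : ℂ) = ((Real.exp κ : ℝ) : ℂ) := by
  have he0 : 0 < e := by linarith
  have hx := Real.exp_pos κ
  have h1 : gs e ((Real.exp κ : ℝ) : ℂ) = ((Real.exp κ ^ 2 *
      ((1 + Real.exp κ ^ e) / 2) ^ (-(2 / e)) : ℝ) : ℂ) := by
    have h2 := f0_real (e := e) hx
    unfold f0 at h2
    unfold gs
    rw [h2]
    have h3 : (0 : ℝ) ≤ (1 + Real.exp κ ^ e) / 2 := by positivity
    rw [Complex.ofReal_mul, Complex.ofReal_cpow h3]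
    push_cast
    rfl
  rw [h1, ← Complex.ofReal_mul]
  congr 1
  rw [exp_half]
  unfold c2
  have hc := Real.cosh_pos (e * κ / 2)
  have hE := Real.exp_pos (e * κ / 2)
  rw [Real.mul_rpow hE.le hc.le, ← Real.exp_mul]
  have e1 : e * κ / 2 * -(2 / e) = -κ := by field_simp
  rw [e1, Real.rpow_neg hc.le, Real.exp_neg]
  have h5 : Real.cosh (e * κ / 2) ^ (2 / e) ≠ 0 := (Real.rpow_pos_of_pos hc _).ne'
  have h6 := hx.ne'
  field_simp

theorem c2_neg (e κ : ℝ) : c2 e (-κ) = c2 e κ := by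
  unfold c2
  have : e * -κ / 2 = -(e * κ / 2) := by ring
  rw [this, Real.cosh_neg]

/-- `Γ' (w) = 2 Γ(w)/(w (1 + w^e))` at `w = e^κ` -/
theorem G1_exp (he : 1 ≤ e) (κ : ℝ) :
    G1 e κ ((Real.exp κ : ℝ) : ℂ) = ((2 / (1 + Real.exp (e * κ)) : ℝ) : ℂ) := by
  have hx := Real.exp_pos κ
  have hcone : ((Real.exp κ : ℝ) : ℂ) ∈ Cone e := cone_real hx
  have hf0 : f0 e ((Real.exp κ : ℝ) : ℂ) ≠ 0 := slitPlane_ne_zero (f0_slit he hcone)
  have h1 := gs_exp he κ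
  have h2 : gs e ((Real.exp κ : ℝ) : ℂ) = ((Real.exp κ : ℝ) : ℂ) ^ 2 *
      (f0 e ((Real.exp κ : ℝ) : ℂ) ^ (-((1 + 2 / e : ℝ) : ℂ)) * f0 e ((Real.exp κ : ℝ) : ℂ)) := by
    unfold gs
    congr 1
    have : -((2 / e : ℝ) : ℂ) = -((1 + 2 / e : ℝ) : ℂ) + 1 := by push_cast; ring
    show f0 e ((Real.exp κ : ℝ) : ℂ) ^ (-((2 / e : ℝ) : ℂ)) = _
    rw [this, Complex.cpow_add _ _ hf0, Complex.cpow_one]
  rw [h2] at h1
  unfold G1
  set g := f0 e ((Real.exp κ : ℝ) : ℂ) ^ (-((1 + 2 / e : ℝ) : ℂ)) with hg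
  have h3 := f0_real (e := e) hx
  rw [h3] at h1
  have h4 : Real.exp κ ^ e = Real.exp (e * κ) := by rw [← Real.exp_mul, mul_comm]
  rw [h4] at h1
  have hE := Real.exp_pos (e * κ)
  have h5 : ((Real.exp κ : ℝ) : ℂ) ≠ 0 := by exact_mod_cast hx.ne'
  have h6 : ((1 + Real.exp (e * κ) : ℝ) : ℂ) ≠ 0 := by
    have : (1 + Real.exp (e * κ) : ℝ) ≠ 0 := by positivity
    exact_mod_cast this
  rw [Complex.ofReal_div, eq_div_iff h6]
  have h7 : ((Real.exp κ : ℝ) : ℂ) * ((c2 e κ : ℂ) * ((Real.exp κ : ℝ) : ℂ) * g *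
      ((1 + Real.exp (e * κ) : ℝ) : ℂ)) = ((Real.exp κ : ℝ) : ℂ) * 2 := by
    rw [Complex.ofReal_div] at h1
    push_cast at h1 ⊢
    linear_combination 2 * h1
  have h8 := mul_left_cancel₀ h5 h7
  rw [h8]
  norm_num

theorem G1_neg (he : 1 ≤ e) (κ : ℝ) :
    G1 e κ ((Real.exp (-κ) : ℝ) : ℂ) = ((2 / (1 + Real.exp (-(e * κ))) : ℝ) : ℂ) := by
  have h1 := G1_exp he (-κ)
  have h2 : G1 e (-κ) ((Real.exp (-κ) : ℝ) : ℂ) = G1 e κ ((Real.exp (-κ) : ℝ) : ℂ) := by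
    unfold G1
    rw [c2_neg]
  rw [← h2, h1]
  congr 3
  ring_nf

theorem G1_sum (he : 1 ≤ e) (κ : ℝ) :
    G1 e κ ((Real.exp κ : ℝ) : ℂ) + G1 e κ ((Real.exp (-κ) : ℝ) : ℂ) = 2 := by
  rw [G1_exp he, G1_neg he, ← Complex.ofReal_add]
  have h1 := Real.exp_pos (e * κ)
  have h2 : Real.exp (-(e * κ)) = (Real.exp (e * κ))⁻¹ := Real.exp_neg _
  have h3 : (2 / (1 + Real.exp (e * κ)) + 2 / (1 + Real.exp (-(e * κ))) : ℝ) = 2 := by
    rw [h2]
    field_simp
    ring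
  rw [h3]
  norm_num

theorem gs_exp_neg (he : 1 ≤ e) (κ : ℝ) :
    (c2 e κ : ℂ) * gs e ((Real.exp (-κ) : ℝ) : ℂ) = ((Real.exp (-κ) : ℝ) : ℂ) := by
  have h1 := gs_exp he (-κ)
  rwa [c2_neg] at h1

/-! ### conjugation -/

theorem cone_conj (hw : w ∈ Cone e) (hs : w ∈ slitPlane) : (starRingEnd ℂ) w ∈ Cone e := by
  refine ⟨(map_ne_zero _).2 hw.1, ?_⟩
  rw [Complex.arg_conj, if_neg (Complex.mem_slitPlane_iff_arg.1 hs).1, abs_neg]
  exact hw.2

theorem gs_conj (he : 1 ≤ e) (hw : w ∈ Cone e) :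
    gs e ((starRingEnd ℂ) w) = (starRingEnd ℂ) (gs e w) := by
  have hs := cone_slit he hw
  have hf := f0_slit he hw
  have h1 : ((starRingEnd ℂ) w) ^ (e : ℂ) = (starRingEnd ℂ) (w ^ (e : ℂ)) := by
    have h2 := Complex.conj_cpow w (e : ℂ) (Complex.mem_slitPlane_iff_arg.1 hs).1
    rw [Complex.conj_ofReal] at h2
    have h3 := congrArg (starRingEnd ℂ) h2
    rw [Complex.conj_conj] at h3
    -- h2 : conj w ^ e = conj (w ^ conj e)
    exact h2
  unfold gs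
  rw [map_mul, map_pow, h1]
  congr 1
  have h4 : (1 + (starRingEnd ℂ) (w ^ (e : ℂ))) / 2 = (starRingEnd ℂ) (f0 e w) := by
    unfold f0
    rw [map_div₀, map_add, map_one, map_ofNat]
  rw [h4]
  have h5 := Complex.conj_cpow (f0 e w) (-((2 / e : ℝ) : ℂ)) (Complex.mem_slitPlane_iff_arg.1 hf).1
  rw [map_neg, Complex.conj_ofReal] at h5
  exact h5

end Pool.Agent.helper12.WL
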