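import Pool.Agent.helper12.WL.Max

/-!
# WL-3: the diamond
-/

namespace Pool.Agent.helper12.WL

open Complex Topology
open Pool.Agent.helper31.EQ.W (c2 gl gs nxt wn FW)
open Pool.Agent.helper4.EQW (f0 G1 h0 v2 KK c2_pos)

/-- open diamond -/
def Dia (X Y : ℝ) : Set ℂ := {z | |z.re| / X + |z.im| / Y < 1}

variable {X Y : ℝ}

theorem dia_cont : Continuous fun z : ℂ => |z.re| / X + |z.im| / Y :=
  ((continuous_abs.comp Complex.continuous_re).div_const _).add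
    ((continuous_abs.comp Complex.continuous_im).div_const _)

theorem dia_closure : closure (Dia X Y) ⊆ {z | |z.re| / X + |z.im| / Y ≤ 1} :=
  closure_minimal (fun z hz => by
    have h : |z.re| / X + |z.im| / Y < 1 := hz
    show |z.re| / X + |z.im| / Y ≤ 1
    exact h.le) (isClosed_le dia_cont continuous_const)

theorem dia_frontier {z : ℂ} (hz : z ∈ frontier (Dia X Y)) : |z.re| / X + |z.im| / Y = 1 := by
  have ho : IsOpen (Dia X Y) := isOpen_lt dia_cont continuous_const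
  rw [ho.frontier_eq] at hz
  obtain ⟨h1, h2⟩ := hz
  have h3 : |z.re| / X + |z.im| / Y ≤ 1 := dia_closure h1
  exact le_antisymm h3 (not_lt.1 h2)

theorem dia_bounded (hX : 0 < X) (hY : 0 < Y) : Bornology.IsBounded (Dia X Y) := by
  rw [isBounded_iff_forall_norm_le]
  refine ⟨X + Y, fun z hz => ?_⟩
  have h1 : |z.re| / X + |z.im| / Y < 1 := hz
  have h2 : 0 ≤ |z.re| / X := by positivity
  have h3 : 0 ≤ |z.im| / Y := by positivity
  have h4 : |z.re| ≤ X := by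
    have : |z.re| / X ≤ 1 := by linarith
    rwa [div_le_one hX] at this
  have h5 : |z.im| ≤ Y := by
    have : |z.im| / Y ≤ 1 := by linarith
    rwa [div_le_one hY] at this
  exact (Complex.norm_le_abs_re_add_abs_im z).trans (add_le_add h4 h5)

theorem dia_of_v2 {s V : ℝ} (hs : 0 ≤ s) {z : ℂ} (hv : ‖z ^ 2 - (s : ℂ)‖ ≤ V)
    (h : (s + V) / X ^ 2 + V / Y ^ 2 < 1) : |z.re| / X + |z.im| / Y < 1 := by
  obtain ⟨p, hp⟩ : ∃ p : ℝ, p = 1 / X := ⟨_, rfl⟩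
  obtain ⟨q, hq⟩ : ∃ q : ℝ, q = 1 / Y := ⟨_, rfl⟩
  have e1 : |z.re| / X + |z.im| / Y = p * |z.re| + q * |z.im| := by rw [hp, hq]; ring
  have e2 : (s + V) / X ^ 2 + V / Y ^ 2 = p ^ 2 * s + V * (p ^ 2 + q ^ 2) := by rw [hp, hq]; ring
  rw [e1]
  rw [e2] at h
  obtain ⟨a, ha⟩ : ∃ a : ℝ, a = |z.re| := ⟨_, rfl⟩
  obtain ⟨b, hb⟩ : ∃ b : ℝ, b = |z.im| := ⟨_, rfl⟩
  rw [← ha, ← hb]
  have ha2 : a ^ 2 = z.re ^ 2 := by rw [ha, sq_abs]
  have hb2 : b ^ 2 = z.im ^ 2 := by rw [hb, sq_abs]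
  obtain ⟨r, hr⟩ : ∃ r : ℝ, r = ‖z ^ 2 - (s : ℂ)‖ := ⟨_, rfl⟩
  rw [← hr] at hv
  have hr0 : 0 ≤ r := by rw [hr]; exact norm_nonneg _
  have hre : (z ^ 2 - (s : ℂ)).re = z.re ^ 2 - z.im ^ 2 - s := by
    rw [Complex.sub_re, Complex.ofReal_re, sq, Complex.mul_re]
    ring
  have him : (z ^ 2 - (s : ℂ)).im = 2 * (z.re * z.im) := by
    rw [Complex.sub_im, Complex.ofReal_im, sq, Complex.mul_im]
    ring
  have hr2 : r ^ 2 = (a ^ 2 - b ^ 2 - s) ^ 2 + (2 * (a * b)) ^ 2 := by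
    rw [hr, ← Complex.normSq_eq_norm_sq, Complex.normSq_apply, hre, him]
    have : (2 * (a * b)) ^ 2 = 4 * (a ^ 2 * b ^ 2) := by ring
    rw [this, ha2, hb2]
    ring
  have hn : a ^ 2 + b ^ 2 ≤ s + r := by
    have h1 : ‖z ^ 2‖ ≤ r + s := by
      have h2 := norm_add_le (z ^ 2 - (s : ℂ)) (s : ℂ)
      rw [sub_add_cancel, ← hr, Complex.norm_real, Real.norm_of_nonneg hs] at h2
      exact h2
    rw [norm_pow, ← Complex.normSq_eq_norm_sq, Complex.normSq_apply] at h1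
    rw [ha2, hb2]
    nlinarith
  set α := a ^ 2 - b ^ 2 - s with hα
  set β := 2 * (a * b) with hβ
  have hcs : α * (p ^ 2 - q ^ 2) / 2 + β * (p * q) ≤ r * (p ^ 2 + q ^ 2) / 2 := by
    apply abs_le_of_sq_le_sq' _ (by positivity) |>.2
    have : (r * (p ^ 2 + q ^ 2) / 2) ^ 2 = (α ^ 2 + β ^ 2) * ((p ^ 2 + q ^ 2) / 2) ^ 2 := by
      rw [← hr2]
      ring
    rw [this]
    nlinarith [sq_nonneg (α * (p * q) - β * ((p ^ 2 - q ^ 2) / 2))]
  have hb' : 2 * b ^ 2 ≤ r - α := by rw [hα]; linarith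
  have hfin : (p * a + q * b) ^ 2 < 1 := by
    have h1 : (p * a + q * b) ^ 2 = p ^ 2 * s + p ^ 2 * α + (p * q) * β + (p ^ 2 + q ^ 2) * b ^ 2 := by
      rw [hα, hβ]
      ring
    have h2 : (p ^ 2 + q ^ 2) * b ^ 2 ≤ (p ^ 2 + q ^ 2) * ((r - α) / 2) :=
      mul_le_mul_of_nonneg_left (by linarith) (by positivity)
    have h3 : r * (p ^ 2 + q ^ 2) ≤ V * (p ^ 2 + q ^ 2) :=
      mul_le_mul_of_nonneg_right hv (by positivity)
    nlinarith
  have := abs_lt_of_sq_lt_sq (by rwa [one_pow] : (p * a + q * b) ^ 2 < 1 ^ 2) zero_le_one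
  exact (abs_lt.1 this).2

variable {e κ T : ℝ}

theorem dia_sub_UT (hX : 0 < X) (hY : 0 < Y) (hXC : X < Real.cosh κ) (hYC : Y < T * Real.cosh κ)
    (hT : 0 < T) {z : ℂ} (hz : |z.re| / X + |z.im| / Y ≤ 1) : z ∈ UT κ T := by
  unfold UT
  rw [Set.mem_ofPred_eq]
  obtain ⟨a, ha⟩ : ∃ a : ℝ, a = |z.re| / X := ⟨_, rfl⟩
  obtain ⟨b, hb⟩ : ∃ b : ℝ, b = |z.im| / Y := ⟨_, rfl⟩
  have ha0 : 0 ≤ a := by rw [ha]; positivity
  have hb0 : 0 ≤ b := by rw [hb]; positivity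
  have e1 : |z.re| = a * X := by rw [ha]; field_simp
  have e2 : |z.im| = b * Y := by rw [hb]; field_simp
  rw [← ha, ← hb] at hz
  rw [e1, e2]
  have hC : 0 < Real.cosh κ := Real.cosh_pos κ
  have h1 : b * Y ≤ (1 - a) * Y := mul_le_mul_of_nonneg_right (by linarith) hY.le
  have h2 : (1 - a) * Y ≤ (1 - a) * (T * Real.cosh κ) :=
    mul_le_mul_of_nonneg_left hYC.le (by linarith)
  have h3 : T * (a * X) ≤ T * (a * Real.cosh κ) :=
    mul_le_mul_of_nonneg_left (mul_le_mul_of_nonneg_left hXC.le ha0) hT.le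
  rcases eq_or_lt_of_le ha0 with h | h
  · rw [← h] at h1 h2 h3 ⊢
    have : b * Y ≤ Y := by linarith
    nlinarith
  · have h4 : T * (a * X) < T * (a * Real.cosh κ) :=
      mul_lt_mul_of_pos_left (mul_lt_mul_of_pos_left hXC h) hT
    nlinarith

/-- Reduction to the first quadrant. -/
theorem quad (he : 1 ≤ e) (hT : 0 < T) (hA : Adm e T) {z : ℂ} (hz : z ∈ UT κ T) {s : ℝ} :
    ‖LD e κ ⟨|z.re|, |z.im|⟩‖ = ‖LD e κ z‖ ∧ ‖(⟨|z.re|, |z.im|⟩ : ℂ)‖ = ‖z‖ ∧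
      ‖(⟨|z.re|, |z.im|⟩ : ℂ) ^ 2 - (s : ℂ)‖ = ‖z ^ 2 - (s : ℂ)‖ := by
  have hconj : ‖LD e κ ((starRingEnd ℂ) z)‖ = ‖LD e κ z‖ := by
    rw [LD_conj he hT hA hz, Complex.norm_conj]
  have hneg : ∀ w : ℂ, ‖LD e κ (-w)‖ = ‖LD e κ w‖ := by
    intro w
    rw [LD_neg, norm_neg]
  have hc2 : ‖((starRingEnd ℂ) z) ^ 2 - (s : ℂ)‖ = ‖z ^ 2 - (s : ℂ)‖ := by
    rw [← Complex.norm_conj (z ^ 2 - (s : ℂ)), map_sub, map_pow, Complex.conj_ofReal]
  rcases le_total 0 z.re with h1 | h1 <;> rcases le_total 0 z.im with h2 | h2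
  · have : (⟨|z.re|, |z.im|⟩ : ℂ) = z := by
      apply Complex.ext <;> simp [abs_of_nonneg h1, abs_of_nonneg h2]
    rw [this]
    exact ⟨rfl, rfl, rfl⟩
  · have : (⟨|z.re|, |z.im|⟩ : ℂ) = (starRingEnd ℂ) z := by
      apply Complex.ext <;> simp [abs_of_nonneg h1, abs_of_nonpos h2]
    rw [this]
    exact ⟨hconj, Complex.norm_conj z, hc2⟩
  · have : (⟨|z.re|, |z.im|⟩ : ℂ) = -(starRingEnd ℂ) z := by
      apply Complex.ext <;> simp [abs_of_nonpos h1, abs_of_nonneg h2]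
    rw [this, neg_sq]
    exact ⟨(hneg _).trans hconj, by rw [norm_neg, Complex.norm_conj], hc2⟩
  · have : (⟨|z.re|, |z.im|⟩ : ℂ) = -z := by
      apply Complex.ext <;> simp [abs_of_nonpos h1, abs_of_nonpos h2]
    rw [this, neg_sq]
    exact ⟨hneg z, norm_neg z, rfl⟩

/-- **Maximum principle.** -/
theorem LD_bound (he : 1 ≤ e) (hκ : 0 < κ) (hT : 0 < T) (hA : Adm e T) (hX : 0 < X) (hY : 0 < Y)
    (hXC : X < Real.cosh κ) (hYC : Y < T * Real.cosh κ) {N V : ℝ}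
    (hb : ∀ t : ℝ, 0 ≤ t → t ≤ 1 → ‖LD e κ ⟨(1 - t) * X, t * Y⟩‖ ≤
      N * (‖(⟨(1 - t) * X, t * Y⟩ : ℂ)‖ *
        ‖(⟨(1 - t) * X, t * Y⟩ : ℂ) ^ 2 - ((Real.sinh κ ^ 2 : ℝ) : ℂ)‖ ^ 2))
    (hV : (Real.sinh κ ^ 2 + V) / X ^ 2 + V / Y ^ 2 < 1) {z : ℂ}
    (hz : ‖z ^ 2 - ((Real.sinh κ ^ 2 : ℝ) : ℂ)‖ ≤ V) :
    ‖LD e κ z‖ ≤ N * (‖z‖ * ‖z ^ 2 - ((Real.sinh κ ^ 2 : ℝ) : ℂ)‖ ^ 2) := by
  have hS : 0 < Real.sinh κ := Real.sinh_pos_iff.2 hκ
  have hV0 : 0 ≤ V := (norm_nonneg _).trans hz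
  have hSX : Real.sinh κ < X := by
    have h1 : Real.sinh κ ^ 2 / X ^ 2 < 1 := by
      have h2 : Real.sinh κ ^ 2 / X ^ 2 ≤ (Real.sinh κ ^ 2 + V) / X ^ 2 :=
        div_le_div_of_nonneg_right (by linarith) (by positivity)
      have h3 : 0 ≤ V / Y ^ 2 := by positivity
      linarith
    rw [div_lt_one (by positivity)] at h1
    exact lt_of_pow_lt_pow_left₀ 2 hX.le h1
  have hSdia : |((Real.sinh κ : ℝ) : ℂ).re| / X + |((Real.sinh κ : ℝ) : ℂ).im| / Y < 1 := by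
    rw [Complex.ofReal_re, Complex.ofReal_im, abs_zero, zero_div, add_zero, abs_of_pos hS,
      div_lt_one hX]
    exact hSX
  have hSU : ((Real.sinh κ : ℝ) : ℂ) ∈ UT κ T := dia_sub_UT hX hY hXC hYC hT hSdia.le
  obtain ⟨g, hg, hfac⟩ := LD_factor he hκ hT hA hSU
  have hS2 : ((Real.sinh κ : ℝ) : ℂ) ^ 2 = ((Real.sinh κ ^ 2 : ℝ) : ℂ) := by push_cast; rfl
  rw [hS2] at hfac
  have hcl : closure (Dia X Y) ⊆ UT κ T := fun w hw => dia_sub_UT hX hY hXC hYC hT (dia_closure hw)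
  have hd : DiffContOnCl ℂ g (Dia X Y) :=
    (hg.mono hcl).diffContOnCl
  have hfr : ∀ w ∈ frontier (Dia X Y), ‖g w‖ ≤ N := by
    intro w hw
    have h1 := dia_frontier hw
    have hwU : w ∈ UT κ T := dia_sub_UT hX hY hXC hYC hT h1.le
    obtain ⟨q1, q2, q3⟩ := quad he hT hA hwU (s := Real.sinh κ ^ 2)
    have ht0 : 0 ≤ |w.im| / Y := by positivity
    have ht1 : |w.im| / Y ≤ 1 := by
      have : 0 ≤ |w.re| / X := by positivity
      linarith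
    have h2 := hb (|w.im| / Y) ht0 ht1
    have e1 : (1 - |w.im| / Y) * X = |w.re| := by
      have : 1 - |w.im| / Y = |w.re| / X := by linarith
      rw [this]
      field_simp
    have e2 : |w.im| / Y * Y = |w.im| := by field_simp
    rw [e1, e2, q1, q2, q3, hfac w, norm_mul, norm_mul, norm_pow] at h2
    have hw0 : w ≠ 0 := by
      intro h
      rw [h] at h1
      simp at h1
    have hws : w ^ 2 - ((Real.sinh κ ^ 2 : ℝ) : ℂ) ≠ 0 := by
      intro h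
      have h3 : (w - (Real.sinh κ : ℝ)) * (w + (Real.sinh κ : ℝ)) = 0 := by
        rw [← hS2] at h
        linear_combination h
      rcases mul_eq_zero.1 h3 with h4 | h4
      · have : w = ((Real.sinh κ : ℝ) : ℂ) := by linear_combination h4
        rw [this] at h1
        linarith
      · have : w = -((Real.sinh κ : ℝ) : ℂ) := by linear_combination h4
        rw [this, Complex.neg_re, Complex.neg_im, abs_neg, abs_neg] at h1
        linarith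
    have hpos : 0 < ‖w‖ * ‖w ^ 2 - ((Real.sinh κ ^ 2 : ℝ) : ℂ)‖ ^ 2 := by
      have := norm_pos_iff.2 hw0
      have := norm_pos_iff.2 hws
      positivity
    rw [mul_comm] at h2
    exact le_of_mul_le_mul_right h2 hpos
  have hzd : z ∈ Dia X Y := dia_of_v2 (by positivity) hz hV
  have h5 := Complex.norm_le_of_forall_mem_frontier_norm_le (dia_bounded hX hY) hd hfr
    (subset_closure hzd)
  rw [hfac z, norm_mul, norm_mul, norm_pow, mul_comm]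
  exact mul_le_mul_of_nonneg_right h5 (by positivity)

end Pool.Agent.helper12.WL
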