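import Pool.Agent.helper12.WL.Cone

/-!
# WL-2: maximum principle for `Λ` on a diamond
-/

namespace Pool.Agent.helper12.WL

open Complex Topology
open Pool.Agent.helper31.EQ.W (c2 gl gs nxt wn FW)
open Pool.Agent.helper4.EQW (f0 G1 h0 v2 KK c2_pos)

/-! ### division by zeros -/

theorem div1 {U : Set ℂ} (hU : IsOpen U) {f : ℂ → ℂ} (hf : DifferentiableOn ℂ f U) {a : ℂ}
    (ha : a ∈ U) (h0 : f a = 0) :
    ∃ g : ℂ → ℂ, DifferentiableOn ℂ g U ∧ (∀ z, f z = (z - a) * g z) ∧ g a = deriv f a := by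
  refine ⟨dslope f a, (Complex.differentiableOn_dslope (hU.mem_nhds ha)).2 hf, ?_, dslope_same f a⟩
  intro z
  have := sub_smul_dslope f a z
  rw [smul_eq_mul, h0, sub_zero] at this
  exact this.symm

theorem div2 {U : Set ℂ} (hU : IsOpen U) {f : ℂ → ℂ} (hf : DifferentiableOn ℂ f U) {a : ℂ}
    (ha : a ∈ U) (h0 : f a = 0) (h1 : deriv f a = 0) :
    ∃ g : ℂ → ℂ, DifferentiableOn ℂ g U ∧ (∀ z, f z = (z - a) ^ 2 * g z) := by
  obtain ⟨g, hg, hfg, hga⟩ := div1 hU hf ha h0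
  obtain ⟨k, hk, hgk, -⟩ := div1 hU hg ha (hga.trans h1)
  refine ⟨k, hk, ?_⟩
  intro z
  rw [hfg, hgk]
  ring

theorem div5 {U : Set ℂ} (hU : IsOpen U) {f : ℂ → ℂ} (hf : DifferentiableOn ℂ f U) {S : ℂ}
    (hS : S ≠ 0) (m0 : (0 : ℂ) ∈ U) (m1 : S ∈ U) (m2 : -S ∈ U) (f00 : f 0 = 0)
    (f1 : f S = 0) (f1' : deriv f S = 0) (f2 : f (-S) = 0) (f2' : deriv f (-S) = 0) :
    ∃ g : ℂ → ℂ, DifferentiableOn ℂ g U ∧ (∀ z, f z = z * (z ^ 2 - S ^ 2) ^ 2 * g z) := by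
  obtain ⟨h, hh, hfh⟩ := div2 hU hf m1 f1 f1'
  have h2S : (-S - S) ^ 2 ≠ 0 := by
    apply pow_ne_zero
    intro h0
    apply hS
    have : (-2 : ℂ) * S = 0 := by linear_combination h0
    simpa using this
  have hh2 : h (-S) = 0 := by
    rw [hfh] at f2
    rcases mul_eq_zero.1 f2 with h3 | h3
    · exact absurd h3 h2S
    · exact h3
  have hd : HasDerivAt h (deriv h (-S)) (-S) := (hh.differentiableAt (hU.mem_nhds m2)).hasDerivAt
  have hp : HasDerivAt (fun z : ℂ => (z - S) ^ 2) (2 * (-S - S)) (-S) := by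
    have h3 : HasDerivAt (fun z : ℂ => z - S) 1 (-S) := (hasDerivAt_id (-S : ℂ)).sub_const S
    have h4 := h3.fun_pow 2
    refine h4.congr_deriv ?_
    norm_num
  have hm := hp.mul hd
  have hfe : f = (fun z : ℂ => (z - S) ^ 2) * h := by
    funext z
    exact hfh z
  rw [← hfe] at hm
  have hd0 : deriv h (-S) = 0 := by
    have h3 := hm.deriv
    rw [f2', hh2, mul_zero, zero_add] at h3
    rcases mul_eq_zero.1 h3.symm with h4 | h4
    · exact absurd h4 h2S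
    · exact h4
  obtain ⟨k, hk, hhk⟩ := div2 hU hh m2 hh2 hd0
  have hk0 : k 0 = 0 := by
    have h3 := f00
    rw [hfh, hhk] at h3
    have h4 : (0 - S : ℂ) ^ 2 ≠ 0 := by
      apply pow_ne_zero
      rw [zero_sub]
      exact neg_ne_zero.2 hS
    have h5 : (0 - -S : ℂ) ^ 2 ≠ 0 := by
      apply pow_ne_zero
      rw [zero_sub, neg_neg]
      exact hS
    rcases mul_eq_zero.1 h3 with h6 | h6
    · exact absurd h6 h4
    · rcases mul_eq_zero.1 h6 with h7 | h7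
      · exact absurd h7 h5
      · exact h7
  obtain ⟨g, hg, hkg, -⟩ := div1 hU hk m0 hk0
  refine ⟨g, hg, ?_⟩
  intro z
  rw [hfh, hhk, hkg]
  ring

/-! ### the function `Λ` -/

noncomputable section

/-- `Λ` as a function of `ζ`. -/
def LD (e κ : ℝ) (z : ℂ) : ℂ :=
  (c2 e κ : ℂ) * gs e ((Real.cosh κ : ℂ) + z) - (c2 e κ : ℂ) * gs e ((Real.cosh κ : ℂ) - z) - 2 * z

/-- The open set where `LD` is analytic. -/
def UT (κ T : ℝ) : Set ℂ := {z | |z.im| < T * (Real.cosh κ - |z.re|)}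

end

/-- the slope `T` is admissible -/
def Adm (e T : ℝ) : Prop := ∀ w : ℂ, |w.im| < T * w.re → w ∈ Cone e

variable {e κ T : ℝ}

theorem UT_open : IsOpen (UT κ T) := by
  apply isOpen_lt
  · exact continuous_abs.comp Complex.continuous_im
  · exact continuous_const.mul (continuous_const.sub (continuous_abs.comp Complex.continuous_re))

theorem UT_neg {z : ℂ} (hz : z ∈ UT κ T) : -z ∈ UT κ T := by
  unfold UT at hz ⊢
  simp only [Set.mem_ofPred_eq, Complex.neg_im, Complex.neg_re, abs_neg] at hz ⊢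
  exact hz

theorem UT_add (hT : 0 < T) (hA : Adm e T) {z : ℂ} (hz : z ∈ UT κ T) :
    (Real.cosh κ : ℂ) + z ∈ Cone e := by
  apply hA
  unfold UT at hz
  simp only [Set.mem_ofPred_eq] at hz
  rw [Complex.add_im, Complex.add_re, Complex.ofReal_im, Complex.ofReal_re, zero_add]
  have h1 := neg_abs_le z.re
  nlinarith

theorem UT_sub (hT : 0 < T) (hA : Adm e T) {z : ℂ} (hz : z ∈ UT κ T) :
    (Real.cosh κ : ℂ) - z ∈ Cone e := by
  have := UT_add hT hA (UT_neg hz)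
  rwa [← sub_eq_add_neg] at this

theorem LD_hasDerivAt (he : 1 ≤ e) (hT : 0 < T) (hA : Adm e T) {z : ℂ} (hz : z ∈ UT κ T) :
    HasDerivAt (LD e κ) (G1 e κ ((Real.cosh κ : ℂ) + z) + G1 e κ ((Real.cosh κ : ℂ) - z) - 2) z := by
  have h1 := (gs_deriv (κ := κ) he (UT_add hT hA hz)).comp z
    ((hasDerivAt_id z).const_add (Real.cosh κ : ℂ))
  have h2 := (gs_deriv (κ := κ) he (UT_sub hT hA hz)).comp z
    ((hasDerivAt_id z).const_sub (Real.cosh κ : ℂ))
  have h3 := (h1.sub h2).sub ((hasDerivAt_id z).const_mul (2 : ℂ))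
  refine h3.congr_deriv ?_
  ring

theorem LD_neg (z : ℂ) : LD e κ (-z) = -LD e κ z := by
  unfold LD
  rw [sub_neg_eq_add, ← sub_eq_add_neg]
  ring

theorem LD_zero : LD e κ 0 = 0 := by
  unfold LD
  simp

theorem cs_add (κ : ℝ) : (Real.cosh κ : ℂ) + (Real.sinh κ : ℂ) = ((Real.exp κ : ℝ) : ℂ) := by
  rw [← Complex.ofReal_add, Real.cosh_add_sinh]

theorem cs_sub (κ : ℝ) : (Real.cosh κ : ℂ) - (Real.sinh κ : ℂ) = ((Real.exp (-κ) : ℝ) : ℂ) := by
  rw [← Complex.ofReal_sub, Real.cosh_sub_sinh]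

theorem LD_S (he : 1 ≤ e) : LD e κ (Real.sinh κ : ℂ) = 0 := by
  unfold LD
  rw [cs_add, cs_sub, gs_exp he, gs_exp_neg he, ← cs_add, ← cs_sub]
  ring

theorem LD_conj (he : 1 ≤ e) (hT : 0 < T) (hA : Adm e T) {z : ℂ} (hz : z ∈ UT κ T) :
    LD e κ ((starRingEnd ℂ) z) = (starRingEnd ℂ) (LD e κ z) := by
  have h1 : (Real.cosh κ : ℂ) + (starRingEnd ℂ) z = (starRingEnd ℂ) ((Real.cosh κ : ℂ) + z) := by
    rw [map_add, Complex.conj_ofReal]
  have h2 : (Real.cosh κ : ℂ) - (starRingEnd ℂ) z = (starRingEnd ℂ) ((Real.cosh κ : ℂ) - z) := by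
    rw [map_sub, Complex.conj_ofReal]
  unfold LD
  rw [h1, h2, gs_conj he (UT_add hT hA hz), gs_conj he (UT_sub hT hA hz)]
  simp only [map_sub, map_mul, Complex.conj_ofReal, map_ofNat]

/-- factorisation of `Λ` -/
theorem LD_factor (he : 1 ≤ e) (hκ : 0 < κ) (hT : 0 < T) (hA : Adm e T)
    (hS : (Real.sinh κ : ℂ) ∈ UT κ T) :
    ∃ g : ℂ → ℂ, DifferentiableOn ℂ g (UT κ T) ∧
      (∀ z, LD e κ z = z * (z ^ 2 - (Real.sinh κ : ℂ) ^ 2) ^ 2 * g z) := by
  have hC := Real.one_le_cosh κ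
  have hS0 : 0 < Real.sinh κ := Real.sinh_pos_iff.2 hκ
  have h0 : (0 : ℂ) ∈ UT κ T := by
    unfold UT
    simp only [Set.mem_ofPred_eq, Complex.zero_im, Complex.zero_re, abs_zero, sub_zero]
    positivity
  have hmS : -(Real.sinh κ : ℂ) ∈ UT κ T := UT_neg hS
  have hG := G1_sum (κ := κ) he
  refine div5 UT_open (fun z hz => (LD_hasDerivAt he hT hA hz).differentiableAt.differentiableWithinAt)
    (by exact_mod_cast hS0.ne') h0 hS hmS LD_zero (LD_S he) ?_ ?_ ?_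
  · rw [(LD_hasDerivAt he hT hA hS).deriv, cs_add, cs_sub, hG]
    ring
  · rw [LD_neg, LD_S he, neg_zero]
  · rw [(LD_hasDerivAt he hT hA hmS).deriv, sub_neg_eq_add, ← sub_eq_add_neg, cs_add, cs_sub]
    linear_combination hG

end Pool.Agent.helper12.WL
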